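import Pool.Agent.V7H98.MLSMain

/-!
# MP_bada7b_pr: the modified log-Sobolev constant is not comparable with the entropy
hitting-time parameter (nor with the entropy mixing time)

The question asks for an absolute constant `C` with `1 / c_MLS ≤ C ρ_ent` for all finite
irreducible reversible chains. The answer is negative, for every choice of the constant `C_ent` in
the definition of `ρ_ent`, and also with `τ_ent` in place of `ρ_ent`.

The chain: simple random walk on the path `{1, …, N}`, reflected at `N`, glued to a vertex `0`
of stationary weight `W = N³ e^N` (all other vertices have weight `1`, all edges have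
conductance `1/2`). From everywhere the chain reaches `0` in time of order `N²` with exponential
tails, and the sets `A` with `π(A) ≤ 1/2` do not contain `0` and have `|log π(A)| ≤ 5N`; so `ρ_ent`
and `τ_ent` are at most of order `N² log N`. The function `e^f` equal to `k²` at `k ≥ 1` and to
`e^{-N}` at `0` has entropy at least of order `N⁴` and energy at most of order `N` (times the same
normalisation), so that `1 / c_MLS` is at least of order `N³`.

Definitions are in `Pool/Agent/V7H98/MLSDefs.lean`.
-/

namespace Pool.Agent.Results.MP_bada7b_pr.NotComparableH98

open Pool.Agent.V7H98.MLS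

/-- For every value `c > 0` of the constant `C_ent` and every `C > 0` there is a finite irreducible
reversible Markov chain with `c_MLS > 0`, `1 / c_MLS > C ρ_ent` and `1 / c_MLS > C τ_ent`. -/
theorem result (c : ℝ) (hc : 0 < c) (C : ℝ) (hC : 0 < C) :
    ∃ (n : ℕ) (P : Matrix (Fin n) (Fin n) ℝ) (π : Fin n → ℝ), IsRevChain P π ∧ 0 < cMLS P π ∧
      C * rhoEnt c P π < 1 / cMLS P π ∧ C * tauEnt P π < 1 / cMLS P π :=
  main c hc C hC

end Pool.Agent.Results.MP_bada7b_pr.NotComparableH98
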